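import Pool.Agent.MVO.StmtsN

/-!
# Squad MVO, row GTK (helper80)
-/

set_option autoImplicit false

namespace Pool.Agent.MVO.H80

open Pool.Agent.Helper14_MV Pool.Agent.Helper2_MV

/-- `c` is a simple letter -/
def sb (k c : ℕ) : Bool := decide (2 ≤ c ∧ c ≤ k + 1)

/-- the number of simple letters -/
def ns (k : ℕ) (l : List ℕ) : ℕ := l.countP (sb k)

/-- occurrences of `d` with exactly `j` simple letters before them, `o` is the offset -/
def tau (k d : ℕ) : ℕ → List ℕ → ℕ → ℕ
  | _, [], _ => 0
  | o, a :: l, j => (if a = d ∧ o = j then 1 else 0) + tau k d (if sb k a then o + 1 else o) l j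

theorem ns_append (k : ℕ) (u v : List ℕ) : ns k (u ++ v) = ns k u + ns k v :=
  List.countP_append

theorem tau_append (k d : ℕ) (u v : List ℕ) (o j : ℕ) :
    tau k d o (u ++ v) j = tau k d o u j + tau k d (o + ns k u) v j := by
  induction u generalizing o with
  | nil => simp [tau, ns]
  | cons a u ih =>
    simp only [List.cons_append, tau]
    rw [ih]
    have e : (if sb k a then o + 1 else o) + ns k u = o + ns k (a :: u) := by
      unfold ns
      rw [List.countP_cons]
      by_cases h : sb k a = true
      · simp [h]; omega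
      · simp [h]
    rw [e]
    omega

theorem tau_not_mem (k d : ℕ) (l : List ℕ) (h : d ∉ l) (o j : ℕ) : tau k d o l j = 0 := by
  induction l generalizing o with
  | nil => rfl
  | cons a l ih =>
    simp only [tau]
    rw [ih (fun hm => h (List.mem_cons_of_mem _ hm)), if_neg, add_zero]
    rintro ⟨h1, -⟩
    exact h (h1 ▸ List.mem_cons_self ..)

theorem tau_block (k d : ℕ) (l : List ℕ) (h : ∀ c ∈ l, NS k c) (o j : ℕ) :
    tau k d o l j = if o = j then l.count d else 0 := by
  induction l generalizing o with
  | nil => simp [tau]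
  | cons a l ih =>
    have ha : sb k a = false := by
      unfold sb
      rw [decide_eq_false_iff_not]
      exact h a (List.mem_cons_self ..)
    simp only [tau]
    rw [ha, ih (fun c hc => h c (List.mem_cons_of_mem _ hc)), List.count_cons]
    by_cases h1 : o = j
    · by_cases h2 : a = d
      · simp [h1, h2]; omega
      · simp [h1, h2]
    · simp [h1]

theorem ns_block (k : ℕ) (l : List ℕ) (h : ∀ c ∈ l, NS k c) : ns k l = 0 := by
  unfold ns
  rw [List.countP_eq_zero]
  intro c hc
  unfold sb
  rw [decide_eq_true_iff]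
  exact h c hc

theorem sep_true {K c : ℕ} (h1 : 2 ≤ c) (h2 : c ≤ K + 1) : sb K c = true := by
  unfold sb
  rw [decide_eq_true_iff]
  exact ⟨h1, h2⟩

theorem ns_asm {K k : ℕ} (hk : k ≤ K) {B : ℕ → List ℕ} (hB : ∀ j ≤ k, ∀ c ∈ B j, NS K c) :
    ns K (asm k B) = k := by
  induction k with
  | zero => exact ns_block K _ (hB 0 (le_refl 0))
  | succ k ih =>
    simp only [asm]
    rw [ns_append, ih (by omega) (fun j hj => hB j (by omega))]
    have e : ns K ((k + 2) :: B (k + 1)) = 1 := by
      have h1 := ns_block K _ (hB (k + 1) (le_refl _))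
      unfold ns at h1 ⊢
      rw [List.countP_cons_of_pos (sep_true (by omega) (by omega)), h1]
    rw [e]

theorem tau_asm {K k d : ℕ} (hk : k ≤ K) {B : ℕ → List ℕ} (hB : ∀ j ≤ k, ∀ c ∈ B j, NS K c)
    (hd : NS K d) (j : ℕ) : tau K d 0 (asm k B) j = if j ≤ k then (B j).count d else 0 := by
  induction k with
  | zero =>
    simp only [asm]
    rw [tau_block K d _ (hB 0 (le_refl 0))]
    by_cases h : j = 0
    · subst h; simp
    · rw [if_neg (fun h' => h h'.symm), if_neg (by omega)]
  | succ k ih =>
    simp only [asm]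
    rw [tau_append, ih (by omega) (fun j hj => hB j (by omega)),
      ns_asm (by omega) (fun j hj => hB j (by omega))]
    simp only [tau]
    have hne : ¬ (k + 2 = d ∧ 0 + k = j) := by
      rintro ⟨h, -⟩
      exact hd (by omega)
    rw [if_neg hne, if_pos (sep_true (K := K) (c := k + 2) (by omega) (by omega)),
      tau_block K d _ (hB (k + 1) (le_refl _))]
    by_cases h1 : j ≤ k
    · rw [if_pos h1, if_neg (by omega), if_pos (by omega)]
      omega
    · rw [if_neg h1]
      by_cases h2 : j = k + 1
      · subst h2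
        rw [if_pos (by omega), if_pos (by omega)]
        omega
      · rw [if_neg (by omega), if_neg (by omega)]

theorem tau_filter (k d : ℕ) (hd : d ≠ 0) (l : List ℕ) (o j : ℕ) :
    tau k d o (l.filter (fun c => decide (c ≠ 0))) j = tau k d o l j := by
  induction l generalizing o with
  | nil => rfl
  | cons a l ih =>
    by_cases ha : a = 0
    · rw [List.filter_cons_of_neg (by simp [ha]), ih]
      simp only [tau]
      have h1 : sb k a = false := by
        unfold sb
        rw [decide_eq_false_iff_not]
        omega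
      rw [h1, if_neg (by rintro ⟨h, -⟩; exact hd (by omega))]
      simp
    · rw [List.filter_cons_of_pos (by simpa using ha)]
      simp only [tau]
      rw [ih]

/-- the image of a one letter word -/
theorem tau_mw (k : ℕ) (g : ℕ → List ℕ) (hg : g 0 = [0]) (k1 : ℕ) (hg2 : ∀ t < k1, 0 ∉ g (t + 2))
    (c : ℕ → ℕ) (o j : ℕ) :
    ns k ((mw k1 c).flatMap g) = ∑ t ∈ Finset.range k1, ns k (g (t + 2)) ∧
    tau k 0 o ((mw k1 c).flatMap g) j = ∑ i ∈ Finset.range (k1 + 1),
      if o + ∑ t ∈ Finset.range i, ns k (g (t + 2)) = j then c i else 0 := by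
  have hrep : ∀ n : ℕ, (List.replicate n 0).flatMap g = List.replicate n 0 := by
    intro n
    induction n with
    | zero => rfl
    | succ n ih => rw [List.replicate_succ, List.flatMap_cons, ih, hg]; rfl
  have h0 : ∀ n : ℕ, ∀ c ∈ List.replicate n 0, NS k c := by
    intro n c hc
    rw [List.eq_of_mem_replicate hc]
    rintro ⟨h, -⟩
    omega
  induction k1 with
  | zero =>
    unfold mw
    simp only [asm]
    rw [hrep, ns_block k _ (h0 _), tau_block k 0 _ (h0 _)]
    simp
  | succ k1 ih =>
    obtain ⟨i1, i2⟩ := ih (fun t ht => hg2 t (by omega))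
    unfold mw at i1 i2 ⊢
    simp only [asm]
    rw [List.flatMap_append, List.flatMap_cons, hrep, ns_append, ns_append, ns_block k _ (h0 _),
      tau_append, tau_append, i1, i2, tau_block k 0 _ (h0 _),
      tau_not_mem k 0 _ (hg2 k1 (by omega)),
      Finset.sum_range_succ (fun i => if o + ∑ t ∈ Finset.range i, ns k (g (t + 2)) = j
        then c i else 0) (k1 + 1), Finset.sum_range_succ (fun t => ns k (g (t + 2))) k1]
    refine ⟨by omega, ?_⟩
    rw [zero_add, List.count_replicate_self, add_assoc o]

theorem filter_mw (g : ℕ → List ℕ) (hg : g 0 = [0] ∨ g 0 = []) (k1 : ℕ) (c c' : ℕ → ℕ) :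
    ((mw k1 c).flatMap g).filter (fun c => decide (c ≠ 0)) =
      ((mw k1 c').flatMap g).filter (fun c => decide (c ≠ 0)) := by
  have hrep : ∀ n : ℕ, ((List.replicate n 0).flatMap g).filter (fun c => decide (c ≠ 0)) = [] := by
    intro n
    induction n with
    | zero => rfl
    | succ n ih =>
      rw [List.replicate_succ, List.flatMap_cons, List.filter_append, ih]
      rcases hg with h | h
      · rw [h]; rfl
      · rw [h]; rfl
  unfold mw
  induction k1 with
  | zero => simp only [asm]; rw [hrep, hrep]
  | succ k1 ih =>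
    simp only [asm]
    rw [List.flatMap_append, List.flatMap_cons, List.filter_append, List.filter_append, hrep, ih,
      List.flatMap_append, List.flatMap_cons, List.filter_append, List.filter_append, hrep]

theorem flat_nil (g : ℕ → List ℕ) (hg : g 0 = []) (k1 : ℕ) (c c' : ℕ → ℕ) :
    (mw k1 c).flatMap g = (mw k1 c').flatMap g := by
  have hrep : ∀ n : ℕ, (List.replicate n 0).flatMap g = [] := by
    intro n
    induction n with
    | zero => rfl
    | succ n ih => rw [List.replicate_succ, List.flatMap_cons, ih, hg]; rfl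
  unfold mw
  induction k1 with
  | zero => simp only [asm]; rw [hrep, hrep]
  | succ k1 ih =>
    simp only [asm]
    rw [List.flatMap_append, List.flatMap_cons, hrep, ih,
      List.flatMap_append, List.flatMap_cons, hrep]

theorem count_mw (g : ℕ → List ℕ) (k1 : ℕ) (c : ℕ → ℕ) (d : ℕ) :
    ((mw k1 c).flatMap g).count d = deg k1 c * (g 0).count d +
      ∑ t ∈ Finset.range k1, (g (t + 2)).count d := by
  have hrep : ∀ n : ℕ, ((List.replicate n 0).flatMap g).count d = n * (g 0).count d := by
    intro n
    induction n with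
    | zero => simp
    | succ n ih =>
      rw [List.replicate_succ, List.flatMap_cons, List.count_append, ih]
      ring
  unfold mw deg
  induction k1 with
  | zero => simp only [asm]; rw [hrep]; simp
  | succ k1 ih =>
    simp only [asm]
    rw [List.flatMap_append, List.flatMap_cons, List.count_append, List.count_append, hrep, ih,
      Finset.sum_range_succ (fun t => (g (t + 2)).count d) k1,
      Finset.sum_range_succ (fun j => c j) (k1 + 1)]
    ring

theorem last_mw (g : ℕ → List ℕ) (hg : g 0 = [0]) (k1 : ℕ) (c : ℕ → ℕ) (hc : 1 ≤ c k1) :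
    ∃ Y, (mw k1 c).flatMap g = Y ++ [0] := by
  have hrep : ∀ n : ℕ, 1 ≤ n → ∃ Y, (List.replicate n 0).flatMap g = Y ++ [0] := by
    intro n hn
    obtain ⟨n, rfl⟩ : ∃ m, n = m + 1 := ⟨n - 1, by omega⟩
    refine ⟨(List.replicate n 0).flatMap g, ?_⟩
    rw [List.replicate_succ', List.flatMap_append]
    simp [hg]
  obtain ⟨Y, hY⟩ := hrep _ hc
  unfold mw
  cases k1 with
  | zero => exact ⟨Y, hY⟩
  | succ k1 =>
    simp only [asm]
    rw [List.flatMap_append, List.flatMap_cons, hY]
    exact ⟨_, by rw [← List.append_assoc, ← List.append_assoc]⟩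

theorem gtk_dir (k : ℕ) (T : (ℕ → ℕ) → (ℕ → ℕ) → Prop) (hext : TExt k T) (hdeg : TDeg k T)
    (k1 : ℕ) (c c' : ℕ → ℕ) (hc : deg k1 c = 3) (hc1 : 1 ≤ c k1)
    (hT : ∀ f, BMap k1 k f → ∀ b, T (psh k1 f c) b → T (psh k1 f c') b)
    (g : ℕ → List ℕ) (M Q : List ℕ)
    (h : QT k T (FreeMonoid.ofList (M ++ (mw k1 c).flatMap g ++ Q))) :
    QT k T (FreeMonoid.ofList (M ++ (mw k1 c').flatMap g ++ Q)) := by
  obtain ⟨B, hW, h01, hTB, hlast⟩ := h
  rw [FreeMonoid.toList_ofList] at hW hlast
  have hB : BlkOk k B := by
    intro j hj a ha hs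
    rcases h01 j hj a ha with h | h
    · omega
    · omega
  obtain ⟨hd0, hd1⟩ := hdeg _ _ hTB
  have hNS0 : NS k 0 := fun h => by omega
  have hNS1 : NS k 1 := fun h => by omega
  have hcount0 : (asm k B).count 0 = 3 := by rw [count_asm hNS0]; exact hd0
  have hcount : ∀ d, d ≠ 0 → (asm k B).count d ≤ 2 := by
    intro d hd
    by_cases h1 : d = 1
    · subst h1
      rw [count_asm hNS1]
      exact hd1.le
    · by_cases h2 : 2 ≤ d ∧ d ≤ k + 1
      · rw [count_sep hB h2.1 h2.2]
        omega
      · have : d ∉ asm k B := by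
          rw [mem_asm]
          rintro (h | ⟨j, hj, h⟩)
          · exact h2 h
          · rcases h01 j hj d h with h3 | h3
            · exact hd h3
            · exact h1 h3
        rw [List.count_eq_zero_of_not_mem this]
        omega
  have hcW : ∀ d, (asm k B).count d = M.count d + (3 * (g 0).count d +
      ∑ t ∈ Finset.range k1, (g (t + 2)).count d) + Q.count d := by
    intro d
    rw [← hW, List.count_append, List.count_append, count_mw, hc]
  have hz : ∀ d ∈ g 0, d = 0 := by
    intro d hd
    by_contra hne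
    have h1 := hcount d hne
    rw [hcW d] at h1
    have h2 : 0 < (g 0).count d := List.count_pos_iff.2 hd
    omega
  have hg0 : g 0 = List.replicate ((g 0).length) 0 := List.eq_replicate_of_mem hz
  have hlen : (g 0).length ≤ 1 := by
    have h1 := hcW 0
    rw [hcount0] at h1
    have h2 : (g 0).count 0 = (g 0).length := by
      conv_lhs => rw [hg0]
      rw [List.count_replicate_self]
    omega
  rcases Nat.lt_or_ge (g 0).length 1 with hl0 | hl1
  · -- empty image
    have hnil : g 0 = [] := List.length_eq_zero_iff.1 (by omega)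
    rw [flat_nil g hnil k1 c' c]
    exact ⟨B, by rw [FreeMonoid.toList_ofList]; exact hW, h01, hTB,
      by rw [FreeMonoid.toList_ofList]; exact hlast⟩
  · have hone : (g 0).length = 1 := by omega
    have hg : g 0 = [0] := by rw [hg0, hone]; rfl
    have h3 := hcW 0
    rw [hcount0, hg] at h3
    have hsum : ∑ t ∈ Finset.range k1, (g (t + 2)).count 0 = 0 := by
      simp at h3
      omega
    have hM : M.count 0 = 0 := by simp at h3; omega
    have hQ : Q.count 0 = 0 := by simp at h3; omega
    have hM' : 0 ∉ M := List.count_eq_zero.1 hM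
    have hQ' : 0 ∉ Q := List.count_eq_zero.1 hQ
    have hg2 : ∀ t < k1, 0 ∉ g (t + 2) := by
      intro t ht
      rw [Finset.sum_eq_zero_iff] at hsum
      exact List.count_eq_zero.1 (hsum t (Finset.mem_range.2 ht))
    set W := M ++ (mw k1 c).flatMap g ++ Q with hWdef
    set W' := M ++ (mw k1 c').flatMap g ++ Q with hW'def
    have hfil : W'.filter (fun c => decide (c ≠ 0)) = W.filter (fun c => decide (c ≠ 0)) := by
      rw [hWdef, hW'def, List.filter_append, List.filter_append, List.filter_append,
        List.filter_append, filter_mw g (Or.inl hg) k1 c' c]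
    have hmem : ∀ d, d ≠ 0 → (d ∈ W' ↔ d ∈ W) := by
      intro d hd
      have h5 : ∀ l : List ℕ, d ∈ l.filter (fun c => decide (c ≠ 0)) ↔ d ∈ l := by
        intro l
        rw [List.mem_filter]
        simp [hd]
      rw [← h5 W', hfil, h5 W]
    have hsep : W'.filter (fun c => decide (2 ≤ c ∧ c ≤ k + 1)) = seps k := by
      have h5 : ∀ l : List ℕ, (l.filter (fun c => decide (c ≠ 0))).filter
          (fun c => decide (2 ≤ c ∧ c ≤ k + 1)) = l.filter (fun c => decide (2 ≤ c ∧ c ≤ k + 1)) := by
        intro l
        rw [List.filter_filter]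
        refine List.filter_congr fun a _ => ?_
        by_cases h6 : 2 ≤ a ∧ a ≤ k + 1
        · have h7 : a ≠ 0 := by omega
          simp [h6, h7]
        · simp [h6]
      rw [← h5 W', hfil, h5 W, hW]
      exact filter_sep hB
    obtain ⟨B', hB', hW'⟩ := dec hsep
    have hB'k : BlkOk k B' := fun j _ a ha => hB' j a ha
    set f : ℕ → ℕ := fun i => ns k M + ∑ t ∈ Finset.range i, ns k (g (t + 2)) with hf
    have htau : ∀ (e : ℕ → ℕ) (j : ℕ), tau k 0 0 (M ++ (mw k1 e).flatMap g ++ Q) j =
        psh k1 f e j := by
      intro e j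
      rw [tau_append, tau_append, tau_not_mem k 0 M hM', tau_not_mem k 0 Q hQ',
        (tau_mw k g hg k1 hg2 e (0 + ns k M) j).2]
      unfold psh
      rw [zero_add, add_zero, zero_add]
    have hBMap : BMap k1 k f := by
      have hmono : Monotone f := by
        intro i j hij
        simp only [hf]
        exact Nat.add_le_add_left (Finset.sum_le_sum_of_subset (Finset.range_subset_range.2 hij)) _
      refine ⟨fun i j hij _ => hmono hij, fun i hi => (hmono hi).trans ?_⟩
      have h5 := ns_asm (le_refl k) hB
      rw [← hW, hWdef, ns_append, ns_append, (tau_mw k g hg k1 hg2 c 0 0).1] at h5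
      simp only [hf]
      omega
    have hj0 : ∀ j ≤ k, (B j).count 0 = psh k1 f c j := by
      intro j hj
      rw [← htau c j, ← hWdef, hW, tau_asm (le_refl k) hB hNS0, if_pos hj]
    have hj0' : ∀ j ≤ k, (B' j).count 0 = psh k1 f c' j := by
      intro j hj
      rw [← htau c' j, ← hW'def, hW', tau_asm (le_refl k) hB'k hNS0, if_pos hj]
    have hj1 : ∀ j ≤ k, (B j).count 1 = (B' j).count 1 := by
      intro j hj
      have h5 : tau k 1 0 W j = tau k 1 0 W' j := by
        rw [← tau_filter k 1 one_ne_zero W, ← tau_filter k 1 one_ne_zero W', hfil]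
      rw [hW, hW', tau_asm (le_refl k) hB hNS1, tau_asm (le_refl k) hB'k hNS1, if_pos hj,
        if_pos hj] at h5
      exact h5
    refine ⟨B', by rw [FreeMonoid.toList_ofList]; exact hW', ?_, ?_, ?_⟩
    · intro j hj a ha
      by_cases ha0 : a = 0
      · exact Or.inl ha0
      · have h5 : a ∈ W' := by rw [hW', mem_asm]; exact Or.inr ⟨j, hj, ha⟩
        rw [hmem a ha0, hW, mem_asm] at h5
        rcases h5 with h5 | ⟨i, hi, h5⟩
        · exact absurd h5 (hB' j a ha)
        · exact h01 i hi a h5
    · have h5 : T (psh k1 f c) (fun j => (B j).count 1) :=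
        hext _ _ _ _ hj0 (fun j _ => rfl) hTB
      have h6 := hT f hBMap _ h5
      exact hext _ _ _ _ (fun j hj => (hj0' j hj).symm) hj1 h6
    · rw [FreeMonoid.toList_ofList]
      obtain ⟨Y, hY⟩ := last_mw g hg k1 c hc1
      rw [hWdef, hY, List.filter_append, List.getLast?_append] at hlast
      rw [hW'def, List.filter_append, List.getLast?_append]
      rcases List.eq_nil_or_concat (Q.filter (fun c => decide (c = 0 ∨ c = 1))) with h5 | ⟨L, b, h5⟩
      · rw [h5, ← List.append_assoc, List.filter_append, List.getLast?_append] at hlast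
        simp at hlast
      · rw [h5] at hlast ⊢
        simp only [List.concat_eq_append, List.getLast?_append, List.getLast?_singleton,
          Option.some_or] at hlast ⊢
        exact hlast

/-- Row GTK. -/
theorem gtk : GtkStmt := by
  intro k T hext hdeg k1 c c' hc hc' h1 h1' hT
  unfold L1 RR GT gam
  intro φ m q
  have e : ∀ l : List ℕ, m * φ (FreeMonoid.ofList l) * q = FreeMonoid.ofList
      (m.toList ++ l.flatMap (fun i => (φ (FreeMonoid.of i)).toList) ++ q.toList) := by
    intro l
    apply FreeMonoid.toList.injective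
    rw [FreeMonoid.toList_mul, FreeMonoid.toList_mul, toList_hom, FreeMonoid.toList_ofList,
      FreeMonoid.toList_ofList]
  rw [e, e]
  exact ⟨gtk_dir k T hext hdeg k1 c c' hc h1 (fun f hf b => (hT f hf b).1) _ _ _,
    gtk_dir k T hext hdeg k1 c' c hc' h1' (fun f hf b => (hT f hf b).2) _ _ _⟩

end Pool.Agent.MVO.H80
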