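import Pool.Agent.MVO.StmtsE

/-!
# Squad MVO, row SRT (helper80)
-/

set_option autoImplicit false

namespace Pool.Agent.MVO.H80

open Pool.Agent.Helper14_MV Pool.Agent.Helper2_MV

/-! ### lists -/

theorem two_split (L : List ℕ) (x y : ℕ) (hxy : x ≠ y) (hx : x ∈ L) (hy : y ∈ L) :
    (∃ l1 c l2, L = l1 ++ x :: (c ++ y :: l2)) ∨ (∃ l1 c l2, L = l1 ++ y :: (c ++ x :: l2)) := by
  obtain ⟨l1, l2, rfl⟩ := List.append_of_mem hx
  rcases List.mem_append.1 hy with h | h
  · obtain ⟨m1, m2, rfl⟩ := List.append_of_mem h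
    exact Or.inr ⟨m1, m2, l2, by simp⟩
  · rcases List.mem_cons.1 h with h | h
    · exact absurd h.symm hxy
    · obtain ⟨m1, m2, rfl⟩ := List.append_of_mem h
      exact Or.inl ⟨l1, m1, m2, rfl⟩

theorem cob_of (w L R S : List ℕ) (x y : ℕ) (hxy : x ≠ y) (hx : x ∈ L) (hy : y ∈ L)
    (hm : ∀ z ∈ L, 2 ≤ w.count z) :
    Cob w (R ++ L ++ S) x y ∨ Cob w (R ++ L ++ S) y x := by
  rcases two_split L x y hxy hx hy with ⟨l1, c, l2, rfl⟩ | ⟨l1, c, l2, rfl⟩
  · left
    exact ⟨R ++ l1, c, l2 ++ S, by simp, fun z hz => hm z (by simp [hz])⟩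
  · right
    exact ⟨R ++ l1, c, l2 ++ S, by simp, fun z hz => hm z (by simp [hz])⟩

/-- restriction to two letters -/
def fl (x y : ℕ) (l : List ℕ) : List ℕ := l.filter (fun c => decide (c = x ∨ c = y))

theorem mem_fl {x y z : ℕ} {l : List ℕ} : z ∈ fl x y l ↔ z ∈ l ∧ (z = x ∨ z = y) := by
  unfold fl
  rw [List.mem_filter, decide_eq_true_iff]

theorem fl_nil {x y : ℕ} {l : List ℕ} (hx : x ∉ l) (hy : y ∉ l) : fl x y l = [] := by
  unfold fl
  rw [List.filter_eq_nil_iff]
  intro a ha
  rw [decide_eq_true_iff]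
  rintro (h | h)
  · exact hx (h ▸ ha)
  · exact hy (h ▸ ha)

theorem fl_append (x y : ℕ) (l m : List ℕ) : fl x y (l ++ m) = fl x y l ++ fl x y m :=
  List.filter_append _ _

theorem fl_cons_l (x y : ℕ) (l : List ℕ) : fl x y (x :: l) = x :: fl x y l := by
  unfold fl
  rw [List.filter_cons_of_pos (by simp)]

theorem fl_cons_r (x y : ℕ) (l : List ℕ) : fl x y (y :: l) = y :: fl x y l := by
  unfold fl
  rw [List.filter_cons_of_pos (by simp)]

theorem r2_eq (x y : ℕ) (D : ℕ → List ℕ) (j : ℕ) : r2 x y D j = fl x y (D j) := rfl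

theorem cnt_fl (x y z : ℕ) (l : List ℕ) :
    (fl x y l).count z = if z = x ∨ z = y then l.count z else 0 := by
  by_cases h : z = x ∨ z = y
  · rw [if_pos h]
    unfold fl
    exact List.count_filter (by rw [decide_eq_true_iff]; exact h)
  · rw [if_neg h]
    exact List.count_eq_zero_of_not_mem (fun hm => h (mem_fl.1 hm).2)

theorem blkOk_r2 {k : ℕ} {D : ℕ → List ℕ} (x y : ℕ) (hD : BlkOk k D) : BlkOk k (r2 x y D) := by
  intro j hj c hc
  rw [r2_eq] at hc
  exact hD j hj c (mem_fl.1 hc).1

theorem rr_r2 (ω : FIC) {k : ℕ} {D E : ℕ → List ℕ} (x y : ℕ) (hD : BlkOk k D) (hE : BlkOk k E)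
    (h : RR ω (asm k D) (asm k E)) : RR ω (asm k (r2 x y D)) (asm k (r2 x y E)) := by
  have h1 := h.filter (fun c => decide (c = x ∨ c = y ∨ (2 ≤ c ∧ c ≤ k + 1)))
  rw [asm_filter _ (fun c h2 h3 => by rw [decide_eq_true_iff]; exact Or.inr (Or.inr ⟨h2, h3⟩)),
    asm_filter _ (fun c h2 h3 => by rw [decide_eq_true_iff]; exact Or.inr (Or.inr ⟨h2, h3⟩))] at h1
  have key : ∀ {F : ℕ → List ℕ}, BlkOk k F →
      asm k (fun j => (F j).filter (fun c => decide (c = x ∨ c = y ∨ (2 ≤ c ∧ c ≤ k + 1)))) =
        asm k (r2 x y F) := by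
    intro F hF
    refine asm_congr fun j hj => ?_
    rw [r2_eq]
    unfold fl
    refine List.filter_congr fun a ha => ?_
    have h5 : ¬ (2 ≤ a ∧ a ≤ k + 1) := hF j hj a ha
    by_cases h6 : a = x ∨ a = y
    · rw [decide_eq_true h6, decide_eq_true (by tauto)]
    · rw [decide_eq_false h6, decide_eq_false (by tauto)]
  rw [key hD, key hE] at h1
  exact h1

theorem deg_local {k : ℕ} {F : ℕ → List ℕ} {i z : ℕ} (hi : i ≤ k)
    (h : ∀ j ≤ k, j ≠ i → z ∉ F j) : deg k (fun j => (F j).count z) = (F i).count z := by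
  unfold deg
  refine Finset.sum_eq_single_of_mem i (Finset.mem_range.2 (by omega)) fun j hj hji => ?_
  exact List.count_eq_zero_of_not_mem (h j (by have := Finset.mem_range.1 hj; omega) hji)

/-! ### one exchange -/

/-- the data of one exchange -/
structure Ctx (ω : FIC) (k : ℕ) (D B' : ℕ → List ℕ) (i : ℕ) (A A' P' Q' : List ℕ) (x y : ℕ) :
    Prop where
  hi : i ≤ k
  hxy : x ≠ y
  hDi : D i = A ++ x :: y :: A'
  hBi : B' i = P' ++ y :: Q'
  h1 : P'.count y = A.count y
  h2 : P'.count x ≤ A.count x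
  hD : BlkOk k D
  hB : BlkOk k B'
  hM : AMul k D
  hcnt : ∀ j ≤ k, ∀ c, (D j).count c = (B' j).count c
  hrel : RR ω (asm k (r2 x y D)) (asm k (r2 x y B'))

variable {ω : FIC} {k : ℕ} {D B' : ℕ → List ℕ} {i : ℕ} {A A' P' Q' : List ℕ} {x y : ℕ}

theorem Ctx.nsx (h : Ctx ω k D B' i A A' P' Q' x y) : NS k x :=
  h.hD i h.hi x (by rw [h.hDi]; simp)

theorem Ctx.nsy (h : Ctx ω k D B' i A A' P' Q' x y) : NS k y :=
  h.hD i h.hi y (by rw [h.hDi]; simp)

theorem Ctx.twoD (h : Ctx ω k D B' i A A' P' Q' x y) : TwoD ω k D (r2 x y B') x y := by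
  refine ⟨blkOk_r2 x y h.hB, fun j hj => ⟨?_, ?_⟩, fun j _ z hz => ?_, h.hrel⟩
  · rw [r2_eq, cnt_fl, if_pos (Or.inl rfl), h.hcnt j hj]
  · rw [r2_eq, cnt_fl, if_pos (Or.inr rfl), h.hcnt j hj]
  · rw [r2_eq] at hz
    exact (mem_fl.1 hz).2

theorem Ctx.word (h : Ctx ω k D B' i A A' P' Q' x y) :
    asm k D = (pre D i ++ A) ++ x :: y :: (A' ++ suf D i (k - i)) := by
  rw [asm_split h.hi, h.hDi]
  simp

theorem Ctx.mul (h : Ctx ω k D B' i A A' P' Q' x y) :
    ∀ j ≤ k, ∀ z ∈ D j, 2 ≤ ((pre D i ++ A) ++ x :: y :: (A' ++ suf D i (k - i))).count z := by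
  intro j hj z hz
  rw [← h.word, count_asm (h.hD j hj z hz)]
  exact h.hM j hj z hz

theorem Ctx.mem_pre' (h : Ctx ω k D B' i A A' P' Q' x y) {z : ℕ} (hz : NS k z) :
    z ∈ pre D i ↔ ∃ j < i, z ∈ D j := by
  rw [mem_pre]
  constructor
  · rintro (h1 | h1)
    · exact absurd ⟨h1.1, by have := h.hi; omega⟩ hz
    · exact h1
  · exact Or.inr

theorem Ctx.mem_suf' (h : Ctx ω k D B' i A A' P' Q' x y) {z : ℕ} (hz : NS k z) :
    z ∈ suf D i (k - i) ↔ ∃ j ≤ k, i < j ∧ z ∈ D j := by
  have hi := h.hi
  rw [mem_suf]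
  constructor
  · rintro (h1 | ⟨j, h1, h2, h3⟩)
    · exact absurd ⟨by omega, by omega⟩ hz
    · exact ⟨j, by omega, h1, h3⟩
  · rintro ⟨j, h1, h2, h3⟩
    exact Or.inr ⟨j, h2, by omega, h3⟩

theorem Ctx.perm (_h : Ctx ω k D B' i A A' P' Q' x y) (p q : List ℕ) (z : ℕ) :
    (p ++ y :: x :: q).count z = (p ++ x :: y :: q).count z :=
  List.Perm.count_eq (List.Perm.append_left p (List.Perm.swap x y q)) z

theorem Ctx.cnt2 (h : Ctx ω k D B' i A A' P' Q' x y) (j : ℕ) (hj : j ≤ k) (z : ℕ) :
    (r2 x y D j).count z = (r2 x y B' j).count z := by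
  rw [r2_eq, r2_eq, cnt_fl, cnt_fl, h.hcnt j hj]

/-- first occurrences -/
theorem ff (hSGC : SgcStmt) (hFFX : FfxStmt) (hSML : SmlStmt) (hC : ClC3 ω)
    (hAd : ¬ MVD.IAd ω) (h : Ctx ω k D B' i A A' P' Q' x y)
    (hxp : x ∉ pre D i ++ A) (hyp : y ∉ pre D i ++ A) (hxq : x ∈ A' ++ suf D i (k - i))
    (hyq : y ∈ A' ++ suf D i (k - i)) :
    RR ω ((pre D i ++ A) ++ x :: y :: (A' ++ suf D i (k - i)))
      ((pre D i ++ A) ++ y :: x :: (A' ++ suf D i (k - i))) := by
  have hi := h.hi
  have hxy := h.hxy
  obtain ⟨hxpre, hxA⟩ : x ∉ pre D i ∧ x ∉ A := by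
    rw [List.mem_append] at hxp; tauto
  obtain ⟨hypre, hyA⟩ : y ∉ pre D i ∧ y ∉ A := by
    rw [List.mem_append] at hyp; tauto
  have hxlt : ∀ j < i, x ∉ D j := fun j hj hm => hxpre ((h.mem_pre' h.nsx).2 ⟨j, hj, hm⟩)
  have hylt : ∀ j < i, y ∉ D j := fun j hj hm => hypre ((h.mem_pre' h.nsy).2 ⟨j, hj, hm⟩)
  have hP'y : y ∉ P' := by
    rw [← List.count_eq_zero, h.h1, List.count_eq_zero]; exact hyA
  have hP'x : x ∉ P' := by
    rw [← List.count_eq_zero]
    have := h.h2
    rw [List.count_eq_zero_of_not_mem hxA] at this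
    omega
  have hheadC : (r2 x y B' i).head? = some y := by
    rw [r2_eq, h.hBi, fl_append, fl_nil hP'x hP'y, fl_cons_r]
    rfl
  have hheadD : (r2 x y D i).head? = some x := by
    rw [r2_eq, h.hDi, fl_append, fl_nil hxA hyA, fl_cons_l]
    rfl
  have hsgc := (hSGC ω hC.cc (pre D i ++ A) (A' ++ suf D i (k - i)) x y).2.1
  have hx2 := h.mul i hi x (by rw [h.hDi]; simp)
  have hy2 := h.mul i hi y (by rw [h.hDi]; simp)
  -- both in the rest of the block
  by_cases hAA : x ∈ A' ∧ y ∈ A'
  · have := cob_of ((pre D i ++ A) ++ x :: y :: (A' ++ suf D i (k - i))) A' []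
      (suf D i (k - i)) x y hxy hAA.1 hAA.2 (fun z hz => h.mul i hi z (by rw [h.hDi]; simp [hz]))
    rw [List.nil_append] at this
    exact hsgc this
  by_cases hboth : ∃ j ≤ k, i < j ∧ x ∈ D j ∧ y ∈ D j
  · obtain ⟨j, hj, hij, hxj, hyj⟩ := hboth
    obtain ⟨R, R', hR⟩ := suf_split (B := D) (i := i) (j := j) (r := k - i) hij (by omega)
    have := cob_of ((pre D i ++ A) ++ x :: y :: (A' ++ suf D i (k - i))) (D j) (A' ++ R)
      R' x y hxy hxj hyj (h.mul j hj)
    have e : A' ++ R ++ D j ++ R' = A' ++ suf D i (k - i) := by rw [hR]; simp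
    rw [e] at this
    exact hsgc this
  have hnb : ∀ j ≤ k, j ≠ i → x ∉ D j ∨ y ∉ D j := by
    intro j hj hji
    rcases Nat.lt_or_ge j i with h5 | h5
    · exact Or.inl (hxlt j h5)
    · by_contra hcon
      push Not at hcon
      exact hboth ⟨j, hj, by omega, hcon.1, hcon.2⟩
  by_cases hX : ∃ j ≤ k, i < j ∧ x ∈ D j
  · by_cases hY : ∃ j ≤ k, i < j ∧ y ∈ D j
    · have h5 := hFFX ω hC.cc k D (r2 x y B') i A A' x y hi h.hD h.hM hxy h.hDi hxA hyA
        (fun j hj => ⟨hxlt j hj, hylt j hj⟩) hnb hX hY h.twoD hheadC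
      rw [h.word, asm_update hi] at h5
      simpa using h5
    · -- `y` is local
      have hysuf : y ∉ suf D i (k - i) := fun hm => hY ((h.mem_suf' h.nsy).1 hm)
      have hyA' : y ∈ A' := by
        rcases List.mem_append.1 hyq with h5 | h5
        · exact h5
        · exact absurd h5 hysuf
      have hxA' : x ∉ A' := fun hm => hAA ⟨hm, hyA'⟩
      have hmult : MVD.Mult A' ((pre D i ++ A) ++ x :: y :: (A' ++ suf D i (k - i))) :=
        fun z hz => h.mul i hi z (by rw [h.hDi]; simp [hz])
      by_cases h3y : 3 ≤ ((pre D i ++ A) ++ x :: y :: (A' ++ suf D i (k - i))).count y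
      · exact hC.l3.2.2 (pre D i ++ A) A' (suf D i (k - i)) x y hyA' hyp hysuf hxp hmult hx2 h3y
      by_cases h3x : 3 ≤ ((pre D i ++ A) ++ x :: y :: (A' ++ suf D i (k - i))).count x
      · exact hC.l3.2.1 (pre D i ++ A) A' (suf D i (k - i)) x y hyA' hyp hysuf hxp hmult h3x
      exfalso
      have hyloc : ∀ j ≤ k, j ≠ i → y ∉ D j := by
        intro j hj hji hm
        rcases Nat.lt_or_ge j i with h5 | h5
        · exact hylt j h5 hm
        · exact hY ⟨j, hj, by omega, hm⟩
      have hcy : (D i).count y = 2 := by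
        rw [← deg_local hi hyloc, ← count_asm h.nsy, h.word]
        omega
      have hcx : deg k (fun j => (D j).count x) = 2 := by
        rw [← count_asm h.nsx, h.word]
        omega
      have hcxi : (D i).count x = 1 := by
        rw [h.hDi, List.count_append, List.count_cons_self, List.count_cons_of_ne hxy.symm,
          List.count_eq_zero_of_not_mem hxA, List.count_eq_zero_of_not_mem hxA']
      have hs := (hSML ω hC.cc k (r2 x y B') (r2 x y D) i y x hi (blkOk_r2 x y h.hB)
        (blkOk_r2 x y h.hD) hxy.symm h.nsy h.nsx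
        (fun j _ z hz => by rw [r2_eq] at hz; exact (mem_fl.1 hz).2.symm)
        (fun j _ z hz => by rw [r2_eq] at hz; exact (mem_fl.1 hz).2.symm)
        (fun j hj z => (h.cnt2 j hj z).symm)
        (by rw [← h.cnt2 i hi, r2_eq, cnt_fl, if_pos (Or.inr rfl)]; exact hcy)
        (by rw [← h.cnt2 i hi, r2_eq, cnt_fl, if_pos (Or.inl rfl)]; exact hcxi)
        (fun j hj hji hm => by
          rw [r2_eq] at hm
          have h6 : 0 < (B' j).count y := List.count_pos_iff.2 (mem_fl.1 hm).1
          rw [← h.hcnt j hj] at h6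
          exact hyloc j hj hji (List.count_pos_iff.1 h6))
        (by
          rw [← hcx]
          unfold deg
          refine Finset.sum_congr rfl fun j hj => ?_
          have hj' : j ≤ k := by have := Finset.mem_range.1 hj; omega
          show (r2 x y B' j).count x = (D j).count x
          rw [← h.cnt2 j hj', r2_eq, cnt_fl, if_pos (Or.inl rfl)])
        h.hrel.symm).1 hAd (by
          obtain ⟨j, hj, hij, hm⟩ := hX
          refine ⟨j, hj, hij, ?_⟩
          rw [r2_eq, mem_fl]
          refine ⟨?_, Or.inl rfl⟩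
          rw [← List.count_pos_iff, ← h.hcnt j hj]
          exact List.count_pos_iff.2 hm)
      exact hs ⟨hheadC, hheadD⟩
  · -- `x` is in no later block
    have hxsuf : x ∉ suf D i (k - i) := fun hm => hX ((h.mem_suf' h.nsx).1 hm)
    have hxA' : x ∈ A' := by
      rcases List.mem_append.1 hxq with h5 | h5
      · exact h5
      · exact absurd h5 hxsuf
    have hyA' : y ∉ A' := fun hm => hAA ⟨hxA', hm⟩
    have hY : ∃ j ≤ k, i < j ∧ y ∈ D j := by
      rcases List.mem_append.1 hyq with h5 | h5
      · exact absurd h5 hyA'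
      · exact (h.mem_suf' h.nsy).1 h5
    have hmult : MVD.Mult A' ((pre D i ++ A) ++ y :: x :: (A' ++ suf D i (k - i))) := by
      intro z hz
      rw [h.perm]
      exact h.mul i hi z (by rw [h.hDi]; simp [hz])
    by_cases h3x : 3 ≤ ((pre D i ++ A) ++ x :: y :: (A' ++ suf D i (k - i))).count x
    · exact (hC.l3.2.2 (pre D i ++ A) A' (suf D i (k - i)) y x hxA' hxp hxsuf hyp hmult
        (by rw [h.perm]; exact hy2) (by rw [h.perm]; exact h3x)).symm
    by_cases h3y : 3 ≤ ((pre D i ++ A) ++ x :: y :: (A' ++ suf D i (k - i))).count y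
    · exact (hC.l3.2.1 (pre D i ++ A) A' (suf D i (k - i)) y x hxA' hxp hxsuf hyp hmult
        (by rw [h.perm]; exact h3y)).symm
    exfalso
    have hxloc : ∀ j ≤ k, j ≠ i → x ∉ D j := by
      intro j hj hji hm
      rcases Nat.lt_or_ge j i with h5 | h5
      · exact hxlt j h5 hm
      · exact hX ⟨j, hj, by omega, hm⟩
    have hcx : (D i).count x = 2 := by
      rw [← deg_local hi hxloc, ← count_asm h.nsx, h.word]
      omega
    have hcy : deg k (fun j => (D j).count y) = 2 := by
      rw [← count_asm h.nsy, h.word]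
      omega
    have hcyi : (D i).count y = 1 := by
      rw [h.hDi, List.count_append, List.count_cons_of_ne hxy, List.count_cons_self,
        List.count_eq_zero_of_not_mem hyA, List.count_eq_zero_of_not_mem hyA']
    have hs := (hSML ω hC.cc k (r2 x y D) (r2 x y B') i x y hi (blkOk_r2 x y h.hD)
      (blkOk_r2 x y h.hB) hxy h.nsx h.nsy
      (fun j _ z hz => by rw [r2_eq] at hz; exact (mem_fl.1 hz).2)
      (fun j _ z hz => by rw [r2_eq] at hz; exact (mem_fl.1 hz).2)
      (fun j hj z => h.cnt2 j hj z)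
      (by rw [r2_eq, cnt_fl, if_pos (Or.inl rfl)]; exact hcx)
      (by rw [r2_eq, cnt_fl, if_pos (Or.inr rfl)]; exact hcyi)
      (fun j hj hji hm => by
        rw [r2_eq] at hm
        exact hxloc j hj hji (mem_fl.1 hm).1)
      (by
        rw [← hcy]
        unfold deg
        refine Finset.sum_congr rfl fun j hj => ?_
        show (r2 x y D j).count y = (D j).count y
        rw [r2_eq, cnt_fl, if_pos (Or.inr rfl)])
      h.hrel).1 hAd (by
        obtain ⟨j, hj, hij, hm⟩ := hY
        refine ⟨j, hj, hij, ?_⟩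
        rw [r2_eq, mem_fl]
        exact ⟨hm, Or.inr rfl⟩)
    exact hs ⟨hheadD, hheadC⟩

/-- last occurrences -/
theorem ll (hSGC : SgcStmt) (hLLX : LlxStmt) (hLBX : LbxStmt) (hSML : SmlStmt) (hC : ClC3 ω)
    (hA : ¬ MVD.IA ω) (h : Ctx ω k D B' i A A' P' Q' x y)
    (hxp : x ∈ pre D i ++ A) (hyp : y ∈ pre D i ++ A) (hxq : x ∉ A' ++ suf D i (k - i))
    (hyq : y ∉ A' ++ suf D i (k - i)) :
    RR ω ((pre D i ++ A) ++ x :: y :: (A' ++ suf D i (k - i)))
      ((pre D i ++ A) ++ y :: x :: (A' ++ suf D i (k - i))) := by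
  have hi := h.hi
  have hxy := h.hxy
  obtain ⟨hxA', hxsuf⟩ : x ∉ A' ∧ x ∉ suf D i (k - i) := by
    rw [List.mem_append] at hxq; tauto
  obtain ⟨hyA', hysuf⟩ : y ∉ A' ∧ y ∉ suf D i (k - i) := by
    rw [List.mem_append] at hyq; tauto
  have hxgt : ∀ j ≤ k, i < j → x ∉ D j := fun j hj hij hm =>
    hxsuf ((h.mem_suf' h.nsx).2 ⟨j, hj, hij, hm⟩)
  have hygt : ∀ j ≤ k, i < j → y ∉ D j := fun j hj hij hm =>
    hysuf ((h.mem_suf' h.nsy).2 ⟨j, hj, hij, hm⟩)
  have hcDy : (D i).count y = A.count y + 1 := by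
    rw [h.hDi, List.count_append, List.count_cons_of_ne hxy, List.count_cons_self,
      List.count_eq_zero_of_not_mem hyA']
  have hcDx : (D i).count x = A.count x + 1 := by
    rw [h.hDi, List.count_append, List.count_cons_self, List.count_cons_of_ne hxy.symm,
      List.count_eq_zero_of_not_mem hxA']
  have hQ'y : y ∉ Q' := by
    have h5 := h.hcnt i hi y
    rw [hcDy, h.hBi, List.count_append, List.count_cons_self, h.h1] at h5
    rw [← List.count_eq_zero]
    omega
  have hQ'x : x ∈ Q' := by
    have h5 := h.hcnt i hi x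
    rw [hcDx, h.hBi, List.count_append, List.count_cons_of_ne hxy.symm] at h5
    have h6 := h.h2
    rw [← List.count_pos_iff]
    omega
  have hlastC : (r2 x y B' i).getLast? = some x := by
    rw [r2_eq, h.hBi, fl_append, fl_cons_r]
    have h5 : ∀ z ∈ fl x y Q', z = x := by
      intro z hz
      rcases (mem_fl.1 hz).2 with h6 | h6
      · exact h6
      · exact absurd (h6 ▸ (mem_fl.1 hz).1) hQ'y
    have h6 := List.eq_replicate_of_mem h5
    have h7 : 0 < (fl x y Q').length := List.length_pos_of_mem (mem_fl.2 ⟨hQ'x, Or.inl rfl⟩)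
    obtain ⟨n, hn⟩ : ∃ n, (fl x y Q').length = n + 1 := ⟨(fl x y Q').length - 1, by omega⟩
    rw [hn, List.replicate_succ'] at h6
    rw [h6, ← List.cons_append, ← List.append_assoc, List.getLast?_concat]
  have hlastD : (r2 x y D i).getLast? = some y := by
    rw [r2_eq, h.hDi, fl_append, fl_cons_l, fl_cons_r, fl_nil hxA' hyA']
    have e : fl x y A ++ [x, y] = (fl x y A ++ [x]) ++ [y] := by simp
    rw [e, List.getLast?_concat]
  have hsgc := (hSGC ω hC.cc (pre D i ++ A) (A' ++ suf D i (k - i)) x y).2.2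
  have hx2 := h.mul i hi x (by rw [h.hDi]; simp)
  have hy2 := h.mul i hi y (by rw [h.hDi]; simp)
  -- both in the block in front of the pair
  by_cases hAA : x ∈ A ∧ y ∈ A
  · have := cob_of ((pre D i ++ A) ++ x :: y :: (A' ++ suf D i (k - i))) A (pre D i)
      [] x y hxy hAA.1 hAA.2 (fun z hz => h.mul i hi z (by rw [h.hDi]; simp [hz]))
    rw [List.append_nil] at this
    exact hsgc this
  by_cases hboth : ∃ j < i, x ∈ D j ∧ y ∈ D j
  · obtain ⟨j, hij, hxj, hyj⟩ := hboth
    obtain ⟨R, hR⟩ := pre_split (B := D) (i := i) (j := j) hij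
    have := cob_of ((pre D i ++ A) ++ x :: y :: (A' ++ suf D i (k - i))) (D j) (pre D j)
      (R ++ A) x y hxy hxj hyj (h.mul j (by omega))
    have e : pre D j ++ D j ++ (R ++ A) = pre D i ++ A := by rw [hR]; simp
    rw [e] at this
    exact hsgc this
  have hnb : ∀ j ≤ k, j ≠ i → x ∉ D j ∨ y ∉ D j := by
    intro j hj hji
    rcases Nat.lt_or_ge j i with h5 | h5
    · by_contra hcon
      push Not at hcon
      exact hboth ⟨j, h5, hcon.1, hcon.2⟩
    · exact Or.inl (hxgt j hj (by omega))
  have eass : ∀ u v : ℕ, (pre D i ++ A) ++ u :: v :: (A' ++ suf D i (k - i)) =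
      pre D i ++ (A ++ u :: v :: (A' ++ suf D i (k - i))) := by
    intro u v
    rw [List.append_assoc]
  by_cases hX : ∃ j < i, x ∈ D j
  · by_cases hY : ∃ j < i, y ∈ D j
    · have h5 := hLLX ω hC.cc k D (r2 x y B') i A A' x y hi h.hD h.hM hxy h.hDi hxA' hyA'
        (fun j hj hij => ⟨hxgt j hj hij, hygt j hj hij⟩) hnb hX hY h.twoD hlastC
      rw [h.word, asm_update hi] at h5
      simpa using h5
    · -- `y` is local
      have hypre : y ∉ pre D i := fun hm => hY ((h.mem_pre' h.nsy).1 hm)
      have hyA : y ∈ A := by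
        rcases List.mem_append.1 hyp with h5 | h5
        · exact absurd h5 hypre
        · exact h5
      have hxA : x ∉ A := fun hm => hAA ⟨hm, hyA⟩
      have hyloc : ∀ j ≤ k, j ≠ i → y ∉ D j := by
        intro j hj hji hm
        rcases Nat.lt_or_ge j i with h5 | h5
        · exact hY ⟨j, h5, hm⟩
        · exact hygt j hj (by omega) hm
      have hmult : MVD.Mult A (pre D i ++ (A ++ x :: y :: (A' ++ suf D i (k - i)))) := by
        rw [← eass]
        exact fun z hz => h.mul i hi z (by rw [h.hDi]; simp [hz])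
      by_cases h3x : 3 ≤ ((pre D i ++ A) ++ x :: y :: (A' ++ suf D i (k - i))).count x
      · rw [eass, eass]
        exact hC.l3.1 (pre D i) A (A' ++ suf D i (k - i)) x y hyA hypre hyq hxq hmult
          (by rw [← eass]; exact h3x)
      have hcx : deg k (fun j => (D j).count x) = 2 := by
        rw [← count_asm h.nsx, h.word]
        omega
      have hcxi : (D i).count x = 1 := by
        rw [hcDx, List.count_eq_zero_of_not_mem hxA]
      by_cases h3y : 3 ≤ ((pre D i ++ A) ++ x :: y :: (A' ++ suf D i (k - i))).count y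
      · have h3' : 3 ≤ (D i).count y := by
          rw [← deg_local hi hyloc, ← count_asm h.nsy, h.word]
          exact h3y
        have h5 := hLBX ω hC.cc hC.l3.2.2 k D (r2 x y B') i A A' x y hi h.hD h.hM hxy h.hDi
          hxA' hyA' (fun j hj hij => ⟨hxgt j hj hij, hygt j hj hij⟩)
          (Or.inr ⟨hyloc, h3', hcxi, hcx, hX⟩) h.twoD hlastC
        rw [h.word, asm_update hi] at h5
        simpa using h5
      exfalso
      have hcy : (D i).count y = 2 := by
        rw [← deg_local hi hyloc, ← count_asm h.nsy, h.word]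
        omega
      have hs := (hSML ω hC.cc k (r2 x y D) (r2 x y B') i y x hi (blkOk_r2 x y h.hD)
        (blkOk_r2 x y h.hB) hxy.symm h.nsy h.nsx
        (fun j _ z hz => by rw [r2_eq] at hz; exact (mem_fl.1 hz).2.symm)
        (fun j _ z hz => by rw [r2_eq] at hz; exact (mem_fl.1 hz).2.symm)
        (fun j hj z => h.cnt2 j hj z)
        (by rw [r2_eq, cnt_fl, if_pos (Or.inr rfl)]; exact hcy)
        (by rw [r2_eq, cnt_fl, if_pos (Or.inl rfl)]; exact hcxi)
        (fun j hj hji hm => by
          rw [r2_eq] at hm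
          exact hyloc j hj hji (mem_fl.1 hm).1)
        (by
          rw [← hcx]
          unfold deg
          refine Finset.sum_congr rfl fun j hj => ?_
          show (r2 x y D j).count x = (D j).count x
          rw [r2_eq, cnt_fl, if_pos (Or.inl rfl)])
        h.hrel).2 hA (by
          obtain ⟨j, hij, hm⟩ := hX
          refine ⟨j, hij, ?_⟩
          rw [r2_eq, mem_fl]
          exact ⟨hm, Or.inl rfl⟩)
      exact hs ⟨hlastD, hlastC⟩
  · -- `x` is local
    have hxpre : x ∉ pre D i := fun hm => hX ((h.mem_pre' h.nsx).1 hm)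
    have hxA : x ∈ A := by
      rcases List.mem_append.1 hxp with h5 | h5
      · exact absurd h5 hxpre
      · exact h5
    have hyA : y ∉ A := fun hm => hAA ⟨hxA, hm⟩
    have hY : ∃ j < i, y ∈ D j := by
      rcases List.mem_append.1 hyp with h5 | h5
      · exact (h.mem_pre' h.nsy).1 h5
      · exact absurd h5 hyA
    have hxloc : ∀ j ≤ k, j ≠ i → x ∉ D j := by
      intro j hj hji hm
      rcases Nat.lt_or_ge j i with h5 | h5
      · exact hX ⟨j, h5, hm⟩
      · exact hxgt j hj (by omega) hm
    have hmult : MVD.Mult A (pre D i ++ (A ++ y :: x :: (A' ++ suf D i (k - i)))) := by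
      rw [← eass]
      intro z hz
      rw [h.perm]
      exact h.mul i hi z (by rw [h.hDi]; simp [hz])
    by_cases h3y : 3 ≤ ((pre D i ++ A) ++ x :: y :: (A' ++ suf D i (k - i))).count y
    · rw [eass, eass]
      exact (hC.l3.1 (pre D i) A (A' ++ suf D i (k - i)) y x hxA hxpre hxq hyq hmult
        (by rw [← eass, h.perm]; exact h3y)).symm
    have hcy : deg k (fun j => (D j).count y) = 2 := by
      rw [← count_asm h.nsy, h.word]
      omega
    have hcyi : (D i).count y = 1 := by
      rw [hcDy, List.count_eq_zero_of_not_mem hyA]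
    by_cases h3x : 3 ≤ ((pre D i ++ A) ++ x :: y :: (A' ++ suf D i (k - i))).count x
    · have h3' : 3 ≤ (D i).count x := by
        rw [← deg_local hi hxloc, ← count_asm h.nsx, h.word]
        exact h3x
      have h5 := hLBX ω hC.cc hC.l3.2.2 k D (r2 x y B') i A A' x y hi h.hD h.hM hxy h.hDi
        hxA' hyA' (fun j hj hij => ⟨hxgt j hj hij, hygt j hj hij⟩)
        (Or.inl ⟨hxloc, h3', hcyi, hcy, hY⟩) h.twoD hlastC
      rw [h.word, asm_update hi] at h5
      simpa using h5
    exfalso
    have hcx : (D i).count x = 2 := by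
      rw [← deg_local hi hxloc, ← count_asm h.nsx, h.word]
      omega
    have hs := (hSML ω hC.cc k (r2 x y B') (r2 x y D) i x y hi (blkOk_r2 x y h.hB)
      (blkOk_r2 x y h.hD) hxy h.nsx h.nsy
      (fun j _ z hz => by rw [r2_eq] at hz; exact (mem_fl.1 hz).2)
      (fun j _ z hz => by rw [r2_eq] at hz; exact (mem_fl.1 hz).2)
      (fun j hj z => (h.cnt2 j hj z).symm)
      (by rw [← h.cnt2 i hi, r2_eq, cnt_fl, if_pos (Or.inl rfl)]; exact hcx)
      (by rw [← h.cnt2 i hi, r2_eq, cnt_fl, if_pos (Or.inr rfl)]; exact hcyi)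
      (fun j hj hji hm => by
        rw [r2_eq] at hm
        have h6 : 0 < (B' j).count x := List.count_pos_iff.2 (mem_fl.1 hm).1
        rw [← h.hcnt j hj] at h6
        exact hxloc j hj hji (List.count_pos_iff.1 h6))
      (by
        rw [← hcy]
        unfold deg
        refine Finset.sum_congr rfl fun j hj => ?_
        have hj' : j ≤ k := by have := Finset.mem_range.1 hj; omega
        show (r2 x y B' j).count y = (D j).count y
        rw [← h.cnt2 j hj', r2_eq, cnt_fl, if_pos (Or.inr rfl)])
      h.hrel.symm).2 hA (by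
        obtain ⟨j, hij, hm⟩ := hY
        refine ⟨j, hij, ?_⟩
        rw [r2_eq, mem_fl]
        refine ⟨?_, Or.inr rfl⟩
        rw [← List.count_pos_iff, ← h.hcnt j (by omega)]
        exact List.count_pos_iff.2 hm)
    exact hs ⟨hlastC, hlastD⟩

theorem exch (hSGC : SgcStmt) (hFFX : FfxStmt) (hLLX : LlxStmt) (hLBX : LbxStmt)
    (hSML : SmlStmt) (hC : ClC3 ω) (hA : ¬ MVD.IA ω) (hAd : ¬ MVD.IAd ω)
    (h : Ctx ω k D B' i A A' P' Q' x y) :
    RR ω (asm k D) (asm k (Function.update D i (A ++ y :: x :: A'))) := by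
  have hi := h.hi
  have hxy := h.hxy
  have hw' : asm k (Function.update D i (A ++ y :: x :: A')) =
      (pre D i ++ A) ++ y :: x :: (A' ++ suf D i (k - i)) := by
    rw [asm_update hi]
    simp
  rw [h.word, hw']
  have hx2 := h.mul i hi x (by rw [h.hDi]; simp)
  have hy2 := h.mul i hi y (by rw [h.hDi]; simp)
  rw [List.count_append, List.count_cons_self, List.count_cons_of_ne hxy.symm] at hx2
  rw [List.count_append, List.count_cons_of_ne hxy, List.count_cons_self] at hy2
  by_cases hxp : x ∈ pre D i ++ A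
  · by_cases hyq : y ∈ A' ++ suf D i (k - i)
    · exact (hSGC ω hC.cc _ _ x y).1 hxp hyq
    · have hyp : y ∈ pre D i ++ A := by
        rw [← List.count_pos_iff]
        rw [List.count_eq_zero_of_not_mem hyq] at hy2
        omega
      by_cases hxq : x ∈ A' ++ suf D i (k - i)
      · exact ((hSGC ω hC.cc _ _ y x).1 hyp hxq).symm
      · exact ll hSGC hLLX hLBX hSML hC hA h hxp hyp hxq hyq
  · have hxq : x ∈ A' ++ suf D i (k - i) := by
      rw [← List.count_pos_iff]
      rw [List.count_eq_zero_of_not_mem hxp] at hx2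
      omega
    by_cases hyp : y ∈ pre D i ++ A
    · exact ((hSGC ω hC.cc _ _ y x).1 hyp hxq).symm
    · have hyq : y ∈ A' ++ suf D i (k - i) := by
        rw [← List.count_pos_iff]
        rw [List.count_eq_zero_of_not_mem hyp] at hy2
        omega
      exact ff hSGC hFFX hSML hC hAd h hxp hyp hxq hyq

/-- Row SRT. -/
theorem srt (hSGC : SgcStmt) (hFFX : FfxStmt) (hLLX : LlxStmt) (hLBX : LbxStmt)
    (hSML : SmlStmt) (hBUL : BulStmt) : SrtStmt := by
  intro ω hC hA hAd k B B' hB hB' hM hcnt hrel
  have main : ∀ s ≤ k + 1, RR ω (asm k B) (asm k (fun j => if j < s then B' j else B j)) := by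
    intro s
    induction s with
    | zero =>
      intro _
      have e : (fun j => if j < 0 then B' j else B j) = B := by
        funext j
        rw [if_neg (by omega)]
      rw [e]
      exact RR.refl _
    | succ s ih =>
      intro hs
      have hsk : s ≤ k := by omega
      have h0 := ih (by omega)
      -- the family with the current list `L` in block `s`
      set F : List ℕ → ℕ → List ℕ := fun L j => if j < s then B' j else if j = s then L else B j
        with hF
      have hchain : ∀ L, Relation.ReflTransGen (ExchL (B' s)) (B s) L →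
          (L.Perm (B s)) ∧ RR ω (asm k B) (asm k (F L)) := by
        intro L hL
        induction hL with
        | refl =>
          refine ⟨List.Perm.refl _, ?_⟩
          have e : F (B s) = fun j => if j < s then B' j else B j := by
            funext j
            simp only [hF]
            by_cases h5 : j < s
            · rw [if_pos h5, if_pos h5]
            · rw [if_neg h5, if_neg h5]
              by_cases h6 : j = s
              · rw [if_pos h6, h6]
              · rw [if_neg h6]
          rw [e]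
          exact h0
        | tail _ hstep ih2 =>
          rename_i L1 L2
          obtain ⟨hperm, hr⟩ := ih2
          obtain ⟨A, A', x, y, hxy, rfl, rfl, P', Q', hP', hc1, hc2⟩ := hstep
          have hperm2 : (A ++ y :: x :: A').Perm (A ++ x :: y :: A') :=
            List.Perm.append_left A (List.Perm.swap x y A')
          refine ⟨hperm2.trans hperm, ?_⟩
          set D := F (A ++ x :: y :: A') with hD
          have hDs : D s = A ++ x :: y :: A' := by
            simp only [hD, hF]
            rw [if_neg (lt_irrefl s), if_true]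
          have hDlt : ∀ j < s, D j = B' j := by
            intro j hj
            simp only [hD, hF]
            rw [if_pos hj]
          have hDgt : ∀ j, s < j → D j = B j := by
            intro j hj
            simp only [hD, hF]
            rw [if_neg (by omega), if_neg (by omega)]
          have hcD : ∀ j ≤ k, ∀ c, (D j).count c = (B' j).count c := by
            intro j hj c
            rcases lt_trichotomy j s with h5 | h5 | h5
            · rw [hDlt j h5]
            · subst h5
              rw [hDs, hperm.count_eq, hcnt j hj]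
            · rw [hDgt j h5, hcnt j hj]
          have hcDB : ∀ j ≤ k, ∀ c, (D j).count c = (B j).count c := by
            intro j hj c
            rw [hcD j hj, hcnt j hj]
          have hmemD : ∀ j ≤ k, ∀ c ∈ D j, c ∈ B j := by
            intro j hj c hc
            rw [← List.count_pos_iff, ← hcDB j hj]
            exact List.count_pos_iff.2 hc
          have hDok : BlkOk k D := fun j hj c hc => hB j hj c (hmemD j hj c hc)
          have hDM : AMul k D := by
            intro j hj c hc
            have h5 := hM j hj c (hmemD j hj c hc)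
            have e : deg k (fun j => (D j).count c) = deg k (fun j => (B j).count c) := by
              unfold deg
              refine Finset.sum_congr rfl fun j hj => ?_
              exact hcDB j (by have := Finset.mem_range.1 hj; omega) c
            rw [e]
            exact h5
          have hrelD : RR ω (asm k (r2 x y D)) (asm k (r2 x y B')) :=
            ω.trans (rr_r2 ω x y hDok hB hr.symm) (hrel x y)
          have hctx : Ctx ω k D B' s A A' P' Q' x y :=
            ⟨hsk, hxy, hDs, hP', hc1, hc2, hDok, hB', hDM, hcD, hrelD⟩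
          have h6 := exch hSGC hFFX hLLX hLBX hSML hC hA hAd hctx
          have e : asm k (F (A ++ y :: x :: A')) =
              asm k (Function.update D s (A ++ y :: x :: A')) := by
            refine asm_congr fun j _ => ?_
            by_cases h7 : j = s
            · subst h7
              rw [Function.update_self]
              simp only [hF]
              rw [if_neg (lt_irrefl j), if_true]
            · rw [Function.update_of_ne h7]
              simp only [hD, hF]
              by_cases h8 : j < s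
              · rw [if_pos h8, if_pos h8]
              · rw [if_neg h8, if_neg h8, if_neg h7, if_neg h7]
          rw [e]
          exact ω.trans hr h6
      have hp : (B s).Perm (B' s) := List.perm_iff_count.2 (fun c => hcnt s hsk c)
      have h7 := (hchain (B' s) (hBUL (B s) (B' s) hp)).2
      have e : F (B' s) = fun j => if j < s + 1 then B' j else B j := by
        funext j
        simp only [hF]
        by_cases h8 : j < s
        · rw [if_pos h8, if_pos (by omega)]
        · rw [if_neg h8]
          by_cases h9 : j = s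
          · rw [if_pos h9, h9, if_pos (by omega)]
          · rw [if_neg h9, if_neg (by omega)]
      rw [e] at h7
      exact h7
  have h1 := main (k + 1) (le_refl _)
  have e : asm k (fun j => if j < k + 1 then B' j else B j) = asm k B' := by
    refine asm_congr fun j hj => ?_
    rw [if_pos (by omega)]
  rw [e] at h1
  exact h1

end Pool.Agent.MVO.H80
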