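import Pool.Agent.MVO.StmtsV

/-!
# Squad MVO, row SGV (helper80)
-/

set_option autoImplicit false

namespace Pool.Agent.MVO.H80

open Pool.Agent.Helper14_MV Pool.Agent.Helper2_MV

/-- Row SGV. -/
theorem sgv : SgvStmt := by
  intro β hF hZ p q x y h
  have hperm : ∀ z : ℕ, (p ++ y :: x :: q).count z = (p ++ x :: y :: q).count z := fun z =>
    List.Perm.count_eq (List.Perm.append_left p (List.Perm.swap x y q)) z
  rcases h with ⟨l1, c, l2, rfl, hm⟩ | ⟨l1, c, l2, rfl, hm⟩ | ⟨l1, c, l2, rfl, hm⟩ |
    ⟨l1, c, l2, rfl, hm⟩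
  · exact hF p l1 c l2 x y hm
  · refine (hF p l1 c l2 y x fun z hz => ?_).symm
    rw [hperm]
    exact hm z hz
  · have h1 := hZ l1 l2 c q x y (by
      intro z hz
      have h2 := hm z hz
      simpa using h2)
    simpa using h1
  · have h1 := hZ l1 l2 c q y x (by
      intro z hz
      have h2 := hm z hz
      rw [← hperm] at h2
      simpa using h2)
    simpa using h1.symm

end Pool.Agent.MVO.H80
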